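import Pool.Agent.NH5.GD.Loc
import Pool.Agent.Y700.Gen

/-!
# Rank zero and `Ш[2] = 0` for all the twists of `X_0(14)` with a square matrix
-/

set_option autoImplicit false
set_option linter.style.haveILetI false

namespace Pool.Agent.NH5.GD

open Finset
open Pool.Agent.TH841.SH.D (Sha)
open Pool.Agent.Y700 (PC WM EQ)
open Pool.Agent.Z702 (LocI S_LQ S_LG WZ S_COC S_LOT S_COB S_TOR S_TRN sha_ex ns_b ns_ab)

noncomputable section

open Classical in
/-- the characteristic vector of a subset -/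
def ind {s : Finset ℕ} (T : Finset ℕ) : s → ZMod 2 := fun q => if (q : ℕ) ∈ T then 1 else 0

open Classical in
/-- the support of a vector -/
def supp {s : Finset ℕ} (v : s → ZMod 2) : Finset ℕ :=
  (univ.filter fun q : s => v q = 1).map (Function.Embedding.subtype fun q => q ∈ s)

theorem mem_supp {s : Finset ℕ} (v : s → ZMod 2) (q : ℕ) :
    q ∈ supp v ↔ ∃ h : q ∈ s, v ⟨q, h⟩ = 1 := by
  classical
  unfold supp
  rw [mem_map]
  constructor
  · rintro ⟨a, ha, rfl⟩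
    exact ⟨a.2, (mem_filter.1 ha).2⟩
  · rintro ⟨h, hv⟩
    exact ⟨⟨q, h⟩, mem_filter.2 ⟨mem_univ _, hv⟩, rfl⟩

theorem supp_sub {s : Finset ℕ} (v : s → ZMod 2) : supp v ⊆ s := fun q hq =>
  ((mem_supp v q).1 hq).1

theorem sum_supp {s : Finset ℕ} (v : s → ZMod 2) (f : ℕ → ZMod 2) :
    ∑ q : s, f q * v q = ∑ q ∈ supp v, f q := by
  classical
  unfold supp
  rw [sum_map, sum_filter]
  refine sum_congr rfl fun q _ => ?_
  have : ∀ a : ZMod 2, a = 0 ∨ a = 1 := by decide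
  rcases this (v q) with h | h
  · rw [h, mul_zero, if_neg (by decide)]
  · rw [h, mul_one, if_pos rfl]
    rfl

theorem supp_ind {s T : Finset ℕ} (hT : T ⊆ s) : supp (s := s) (ind T) = T := by
  classical
  ext q
  rw [mem_supp]
  unfold ind
  constructor
  · rintro ⟨h, hv⟩
    by_contra hcon
    simp [hcon] at hv
  · intro h
    exact ⟨hT h, by simp [h]⟩

theorem supp_eq_empty {s : Finset ℕ} {v : s → ZMod 2} (h : supp v = ∅) : v = 0 := by
  funext q
  have : ∀ a : ZMod 2, a ≠ 1 → a = 0 := by decide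
  refine this _ fun h1 => ?_
  have h2 : (q : ℕ) ∈ supp v := (mem_supp v q).2 ⟨q.2, h1⟩
  rw [h] at h2
  exact absurd h2 (notMem_empty _)

theorem ker1 {D : ℤ} (hD : Adm D) (v : Cw D → ZMod 2) :
    (MD D).mulVec v = 0 ↔ K1 D (supp v) := by
  rw [K1_iff hD (supp_sub v)]
  have e : ∀ p : Rw D, (MD D).mulVec v p = ∑ q ∈ supp v, ent D p q := by
    intro p
    unfold MD Matrix.mulVec dotProduct
    simp only [Matrix.of_apply]
    exact sum_supp v fun q => ent D p q
  constructor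
  · intro h p hp
    rw [← e ⟨p, hp⟩, h]
    rfl
  · intro h
    funext p
    rw [e p, h p p.2]
    rfl

theorem ker2 {D : ℤ} (hD : Adm D) (v : Rw D → ZMod 2) :
    (MD D).transpose.mulVec v = 0 ↔ K2 D (supp v) := by
  rw [K2_iff hD (supp_sub v)]
  have e : ∀ p : Cw D, (MD D).transpose.mulVec v p = ∑ q ∈ supp v, ent D q p := by
    intro p
    unfold MD Matrix.mulVec dotProduct
    simp only [Matrix.transpose_apply, Matrix.of_apply]
    exact sum_supp v fun q => ent D q p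
  constructor
  · intro h p hp
    rw [← e ⟨p, hp⟩, h]
    rfl
  · intro h
    funext p
    rw [e p, h p p.2]
    rfl

theorem inj1 {D : ℤ} (hD : Adm D) : Function.Injective (MD D).mulVec ↔
    ∀ T ⊆ Cw D, K1 D T → T = ∅ := by
  rw [← Matrix.coe_mulVecLin, injective_iff_map_eq_zero]
  constructor
  · intro h T hT hk
    have h1 := h (ind T) ((ker1 hD _).2 (by rw [supp_ind hT]; exact hk))
    rw [← supp_ind hT, h1]
    ext q
    rw [mem_supp]
    simp
  · intro h v hv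
    exact supp_eq_empty (h _ (supp_sub v) ((ker1 hD v).1 hv))

theorem inj2 {D : ℤ} (hD : Adm D) : Function.Injective (MD D).transpose.mulVec ↔
    ∀ T ⊆ Rw D, K2 D T → T = ∅ := by
  rw [← Matrix.coe_mulVecLin, injective_iff_map_eq_zero]
  constructor
  · intro h T hT hk
    have h1 := h (ind T) ((ker2 hD _).2 (by rw [supp_ind hT]; exact hk))
    rw [← supp_ind hT, h1]
    ext q
    rw [mem_supp]
    simp
  · intro h v hv
    exact supp_eq_empty (h _ (supp_sub v) ((ker2 hD v).1 hv))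

/-- the matrix is square and nonsingular -/
def Good (D : ℤ) : Prop := Function.Injective (MD D).mulVec ∧ Function.Injective (MD D).transpose.mulVec

theorem good_s1 {D : ℤ} (hD : Adm D) (hG : Good D) (z : ℤ) (hz : Squarefree z) (hz0 : 0 < z)
    (h : ∀ (l : ℕ) [Fact l.Prime], PC (13 * D) (128 * D ^ 2) l z) : z = 1 ∨ z = 2 := by
  obtain ⟨T, hT, hk, h1⟩ := selA hD.sqf (by have := hD.m4; omega) hD.n7 hz hz0 h
  have := (inj1 hD).1 hG.1 T hT hk
  subst this
  simpa using h1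

theorem good_s2 {D : ℤ} (hD : Adm D) (hG : Good D) (z : ℤ) (hz : Squarefree z)
    (h : ∀ (l : ℕ) [Fact l.Prime], PC (-26 * D) (-343 * D ^ 2) l z) : z = 1 ∨ z = -7 := by
  obtain ⟨T, hT, hk, h1⟩ := selB hD.sqf hD.m4 hD.n7 hz h
  have := (inj2 hD).1 hG.2 T hT hk
  subst this
  simpa using h1

/-- everything which follows from the descent -/
theorem alg_good {D : ℤ} (hD : Adm D) (hG : Good D) :
    (∀ (n : ℕ) (x : Sha (EQ (WM D))), 2 ^ n • x = 0 → x = 0) ∧
    Finite (EQ (WM D)).toAffine.Point ∧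
    ∃ k, Odd k ∧ Nat.card (EQ (WM D)).toAffine.Point = 2 * k :=
  Pool.Agent.Y700.alg_M hD.m4 (fun z h1 h2 h3 => good_s1 hD hG z h1 h2 (fun l _ => h3 l))
    (fun z h1 h2 => good_s2 hD hG z h1 (fun l _ => by
      have h3 := h2 l
      have e1 : (-2 : ℤ) * (13 * D) = -26 * D := by ring
      have e2 : ((13 : ℤ) * D) ^ 2 - 4 * (128 * D ^ 2) = -343 * D ^ 2 := by ring
      rw [e1, e2] at h3
      exact h3))

theorem nsq {d : ℤ} {l : ℕ} (hl : l.Prime) {d' : ℤ} (h : d = l * d') (hd' : ¬ (l : ℤ) ∣ d') :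
    ¬ IsSquare (d : ℚ) := by
  intro hs
  have h1 : IsSquare d := by
    rwa [Rat.isSquare_intCast_iff] at hs
  obtain ⟨r, hr⟩ := h1
  have hP := Nat.prime_iff_prime_int.1 hl
  have h2 : (l : ℤ) ∣ r := by
    have : (l : ℤ) ∣ r * r := by rw [← hr, h]; exact dvd_mul_right _ _
    rcases hP.dvd_or_dvd this with h | h <;> exact h
  obtain ⟨k, hk⟩ := h2
  apply hd'
  refine ⟨k * k, ?_⟩
  have hl0 : (l : ℤ) ≠ 0 := by exact_mod_cast hl.ne_zero
  apply mul_left_cancel₀ hl0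
  rw [← h, hr, hk]
  ring

/-- **the converse** -/
theorem conv (h1 : S_COC) (h2 : S_LOT) (h3 : S_COB) (h4 : S_TOR) (hq : S_LQ) (hg : S_LG) {D : ℤ}
    (hD : Adm D) (hf : Finite (WZ (13 * D) (128 * D ^ 2)).toAffine.Point)
    (hsh : ∀ x : Sha (WZ (13 * D) (128 * D ^ 2)), x + x = 0 → x = 0) :
    Function.Injective (MD D).transpose.mulVec := by
  classical
  rw [inj2 hD]
  intro T hT hk
  by_contra hne
  obtain ⟨l, lT⟩ := Finset.nonempty_iff_ne_empty.2 hne
  have hD0 := hD.n0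
  have hD2 : 0 < D ^ 2 := by positivity
  have hab : (13 * D) ^ 2 - 4 * (128 * D ^ 2) < 0 := by nlinarith
  have hTp : ∀ q ∈ T, q.Prime := fun q h => ((mem_Rw hD0).1 (hT h)).1
  have hd0 : ∏ q ∈ T, st q ≠ 0 := by
    rw [← Int.natAbs_ne_zero, natAbs_prod_st, prod_ne_zero_iff]
    exact fun q hq => (hTp q hq).ne_zero
  have hl7T : 7 ∉ T := fun h => hD.ne7 ((mem_Rw hD0).1 (hT h)).2.1 rfl
  obtain ⟨l1, l2⟩ := loc_all hq hg hD hT hk
  have hlp := hTp l lT
  haveI : Fact l.Prime := ⟨hlp⟩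
  have e2 : ∏ q ∈ T, st q = (l : ℤ) * (sg l * ∏ q ∈ T.erase l, st q) := by
    rw [← Finset.mul_prod_erase T st lT, st_eq l]
    ring
  have hd' : ¬ (l : ℤ) ∣ sg l * ∏ q ∈ T.erase l, st q := by
    intro h
    rcases (Nat.prime_iff_prime_int.1 hlp).dvd_or_dvd h with h1 | h1
    · have h3 := (ZMod.intCast_zmod_eq_zero_iff_dvd (sg l) l).2 h1
      exact sg_ne h3
    · exact st_prod_ne hlp (fun q hq => hTp q (mem_of_mem_erase hq)) (notMem_erase l T) h1
  obtain ⟨x, hx0, hx2⟩ := sha_ex h1 h2 h3 h4 (d := ∏ q ∈ T, st q) (by positivity) hab.ne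
    (ns_b hD0) (ns_ab hD0) hd0 (nsq hlp e2 hd') (by
      have e5 : ((∏ q ∈ T, st q : ℤ) : ℚ) * (((13 * D : ℤ) : ℚ) ^ 2 - 4 * ((128 * D ^ 2 : ℤ) : ℚ)) =
        (((-7 * ∏ q ∈ T, st q) * (7 * D) ^ 2 : ℤ) : ℚ) := by
        push_cast; ring
      rw [e5]
      rw [show (-7 * ∏ q ∈ T, st q) * (7 * D) ^ 2 = ((-7 * ∏ q ∈ T, st q)) * (7 * D) ^ 2 by ring]
      refine Pool.Agent.Y700.not_sq_aux _ ?_ (mul_ne_zero (by norm_num) hD0)
      intro hs
      refine nsq (d := -7 * ∏ q ∈ T, st q) (l := 7) (by norm_num) (d' := -∏ q ∈ T, st q)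
        (by push_cast; ring) ?_ ?_
      · rw [dvd_neg]
        exact st_prod_ne (by norm_num) hTp hl7T
      · exact Rat.isSquare_intCast_iff.2 hs) l1 l2 hf
  exact hx0 (hsh x hx2)

/-! ### square matrices -/

theorem inj_rank {m n : Type} [Fintype m] [Fintype n] [DecidableEq m] [DecidableEq n]
    (A : Matrix m n (ZMod 2)) : Function.Injective A.mulVec ↔ A.rank = Fintype.card n := by
  haveI : Fact (Nat.Prime 2) := ⟨Nat.prime_two⟩
  have h := LinearMap.finrank_range_add_finrank_ker A.mulVecLin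
  rw [Module.finrank_fintype_fun_eq_card] at h
  have e : A.rank = Module.finrank (ZMod 2) (LinearMap.range A.mulVecLin) := rfl
  rw [← Matrix.coe_mulVecLin, ← LinearMap.ker_eq_bot, e, ← Submodule.finrank_eq_zero]
  omega

theorem good_iff {D : ℤ} : Good D ↔ (Rw D).card = (Cw D).card ∧
    Function.Injective (MD D).transpose.mulVec := by
  classical
  haveI : Fact (Nat.Prime 2) := ⟨Nat.prime_two⟩
  have e1 := inj_rank (MD D)
  have e2 := inj_rank (MD D).transpose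
  rw [Matrix.rank_transpose] at e2
  rw [Fintype.card_coe] at e1 e2
  unfold Good
  rw [e1, e2]
  constructor
  · rintro ⟨h1, h2⟩
    exact ⟨by rw [← h1, ← h2], h2⟩
  · rintro ⟨h1, h2⟩
    exact ⟨by rw [h2, h1], h2⟩

/-- **the equivalence** -/
theorem equiv (h1 : S_COC) (h2 : S_LOT) (h3 : S_COB) (h4 : S_TOR) (hq : S_LQ) (hg : S_LG)
    (hT : S_TRN) {D : ℤ} (hD : Adm D) (hc : (Rw D).card = (Cw D).card) :
    Good D ↔ (Finite (EQ (WM D)).toAffine.Point ∧ ∀ x : Sha (EQ (WM D)), x + x = 0 → x = 0) := by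
  obtain ⟨t1, t2, -⟩ := Pool.Agent.Z702.trn_WM hT hD.m4
  constructor
  · intro hG
    obtain ⟨a1, a2, -⟩ := alg_good hD hG
    exact ⟨a2, fun x hx => a1 1 x (by rw [pow_one, two_nsmul]; exact hx)⟩
  · rintro ⟨hf, hsh⟩
    exact good_iff.2 ⟨hc, conv h1 h2 h3 h4 hq hg hD (t1.2 hf) (t2.2 hsh)⟩

end

end Pool.Agent.NH5.GD
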