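import Pool.Agent.Y809.BSD14.Selb
import Pool.Agent.Z702.LocZ

/-!
# The two isogeny Selmer sets of all the twists of `X_0(14)`

`D` is squarefree, `= 1` modulo `4` and prime to `14`, of any sign.  The members of the first set are
(up to the factor `2`) the products of the primes `q ∣ D` of a set `T` with `K1 D T`, the members of the
second (up to the factor `-7`) the products of `± q = 1` modulo `4`, `q` in a set with `K2 D T`.
-/

set_option autoImplicit false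
set_option linter.style.haveILetI false

namespace Pool.Agent.NH5.GD

open Finset
open Pool.Agent.Y700 (PC)
open Pool.Agent.Y814.BSD14 Pool.Agent.Y809.BSD14

/-- `± q`, congruent to `1` modulo `4` -/
def st (q : ℕ) : ℤ := if q % 4 = 1 then q else -q

/-- the sign of `st` -/
def sg (q : ℕ) : ℤ := if q % 4 = 1 then 1 else -1

theorem st_eq (q : ℕ) : st q = sg q * q := by
  unfold st sg
  split_ifs <;> ring

/-- the primes of the second set (`2` is a square) -/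
noncomputable def Rw (D : ℤ) : Finset ℕ := by
  classical exact D.natAbs.primeFactors.filter fun p => IsSquare (2 : ZMod p)

/-- the primes of the first set (`-7` is a square) -/
noncomputable def Cw (D : ℤ) : Finset ℕ := by
  classical exact D.natAbs.primeFactors.filter fun p => IsSquare (-7 : ZMod p)

theorem mem_Rw {D : ℤ} (hD : D ≠ 0) {p : ℕ} :
    p ∈ Rw D ↔ p.Prime ∧ (p : ℤ) ∣ D ∧ IsSquare (2 : ZMod p) := by
  classical
  unfold Rw
  rw [mem_filter, Nat.mem_primeFactors, Int.natCast_dvd]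
  have : D.natAbs ≠ 0 := Int.natAbs_ne_zero.2 hD
  tauto

theorem mem_Cw {D : ℤ} (hD : D ≠ 0) {p : ℕ} :
    p ∈ Cw D ↔ p.Prime ∧ (p : ℤ) ∣ D ∧ IsSquare (-7 : ZMod p) := by
  classical
  unfold Cw
  rw [mem_filter, Nat.mem_primeFactors, Int.natCast_dvd]
  have : D.natAbs ≠ 0 := Int.natAbs_ne_zero.2 hD
  tauto

/-- the conditions of the first set -/
def K1 (D : ℤ) (T : Finset ℕ) : Prop := ∀ p ∈ Rw D,
  (p ∉ T → IsSquare (∏ q ∈ T, (q : ZMod p))) ∧
  (p ∈ T → ∃ r : ZMod p, r ^ 2 + 13 * ((D / p : ℤ) : ZMod p) * r + 128 * ((D / p : ℤ) : ZMod p) ^ 2 = 0 ∧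
    IsSquare (r * ∏ q ∈ T.erase p, (q : ZMod p)))

/-- the conditions of the second set -/
def K2 (D : ℤ) (T : Finset ℕ) : Prop := ∀ p ∈ Cw D,
  (p ∉ T → IsSquare (∏ q ∈ T, (st q : ZMod p))) ∧
  (p ∈ T → ∃ r : ZMod p, r ^ 2 - 26 * ((D / p : ℤ) : ZMod p) * r - 343 * ((D / p : ℤ) : ZMod p) ^ 2 = 0 ∧
    IsSquare (r * (sg p * ∏ q ∈ T.erase p, (st q : ZMod p))))

theorem prime_ne {D : ℤ} {p q : ℕ} (hq : ¬ (q : ℤ) ∣ D) (h : (p : ℤ) ∣ D) : p ≠ q := by
  rintro rfl; exact hq h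

/-- a squarefree number and its primes without the factor `q0` -/
theorem natAbs_split {z : ℤ} (hz : Squarefree z) (q0 : ℕ) :
    z.natAbs = ∏ q ∈ z.natAbs.primeFactors.erase q0, q ∨
      z.natAbs = q0 * ∏ q ∈ z.natAbs.primeFactors.erase q0, q := by
  have h1 := Nat.prod_primeFactors_of_squarefree (Int.squarefree_natAbs.2 hz)
  by_cases h : q0 ∈ z.natAbs.primeFactors
  · right
    conv_lhs => rw [← h1]
    rw [← Finset.mul_prod_erase _ (fun r : ℕ => r) h]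
  · left
    rw [Finset.erase_eq_of_notMem h]
    exact h1.symm

theorem two_ne {p : ℕ} [hp : Fact p.Prime] (h : p ≠ 2) : (2 : ZMod p) ≠ 0 := by
  exact_mod_cast cast_ne hp.out Nat.prime_two h

theorem seven_ne {p : ℕ} [hp : Fact p.Prime] (h : p ≠ 7) : (7 : ZMod p) ≠ 0 := by
  exact_mod_cast cast_ne hp.out (by norm_num : (7 : ℕ).Prime) h

theorem ediv {D : ℤ} {p : ℕ} (h : (p : ℤ) ∣ D) : D = p * (D / p) := (Int.mul_ediv_cancel' h).symm

/-- **the first set** -/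
theorem selA {D : ℤ} (hD : Squarefree D) (h2 : ¬ (2 : ℤ) ∣ D) (h7 : ¬ (7 : ℤ) ∣ D) {z : ℤ}
    (hz : Squarefree z) (hz0 : 0 < z)
    (h : ∀ (l : ℕ) [Fact l.Prime], PC (13 * D) (128 * D ^ 2) l z) :
    ∃ T ⊆ Cw D, K1 D T ∧ (z = ∏ q ∈ T, (q : ℤ) ∨ z = 2 * ∏ q ∈ T, (q : ℤ)) := by
  classical
  have hD0 : D ≠ 0 := hD.ne_zero
  have hz00 : z.natAbs ≠ 0 := Int.natAbs_ne_zero.2 hz.ne_zero
  obtain ⟨T, hTd⟩ : ∃ T, T = z.natAbs.primeFactors.erase 2 := ⟨_, rfl⟩
  have hT : ∀ q, q ∈ T ↔ q ≠ 2 ∧ q.Prime ∧ (q : ℤ) ∣ z := by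
    intro q
    rw [hTd, mem_erase, Nat.mem_primeFactors, Int.natCast_dvd]
    tauto
  have hzT : z = ∏ q ∈ T, (q : ℤ) ∨ z = 2 * ∏ q ∈ T, (q : ℤ) := by
    have e : (z.natAbs : ℤ) = z := Int.natAbs_of_nonneg hz0.le
    rcases natAbs_split hz 2 with h1 | h1
    · left
      rw [← hTd] at h1
      have h2 : (z.natAbs : ℤ) = ((∏ q ∈ T, q : ℕ) : ℤ) := by rw [← h1]
      rw [e] at h2
      rw [h2]; push_cast; rfl
    · right
      rw [← hTd] at h1
      have h2 : (z.natAbs : ℤ) = ((2 * ∏ q ∈ T, q : ℕ) : ℤ) := by rw [← h1]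
      rw [e] at h2
      rw [h2]; push_cast; rfl
  have hdiv : ∀ q ∈ T, (q : ℤ) ∣ D := by
    intro q hq
    obtain ⟨q2, hqp, hqz⟩ := (hT q).1 hq
    haveI : Fact q.Prime := ⟨hqp⟩
    by_contra hcon
    refine not_dvd_of_PC hz ?_ (h q) hqz
    intro h0
    rcases (Nat.prime_iff_prime_int.1 hqp).dvd_or_dvd h0 with h1 | h1
    · exact nd128 hqp q2 h1
    · exact hcon ((Nat.prime_iff_prime_int.1 hqp).dvd_of_dvd_pow h1)
  -- the root at a prime dividing `D` and `z`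
  have hroot : ∀ q : ℕ, q.Prime → q ≠ 2 → (q : ℤ) ∣ D → (q : ℤ) ∣ z → ∃ r : ZMod q,
      r ^ 2 + 13 * ((D / q : ℤ) : ZMod q) * r + 128 * ((D / q : ℤ) : ZMod q) ^ 2 = 0 ∧ r ≠ 0 ∧
      ∀ z' : ℤ, z = q * z' → IsSquare (r * (z' : ZMod q)) := by
    intro q hq q2 hqD hqz
    haveI : Fact q.Prime := ⟨hq⟩
    have e := ediv hqD
    have hnd := not_dvd_of_sqf hq hD e
    have hB : ¬ (q : ℤ) ∣ 128 * (D / q) ^ 2 := by
      intro h0
      rcases (Nat.prime_iff_prime_int.1 hq).dvd_or_dvd h0 with h1 | h1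
      · exact nd128 hq q2 h1
      · exact hnd ((Nat.prime_iff_prime_int.1 hq).dvd_of_dvd_pow h1)
    have h1 := h q
    rw [show 13 * D = (q : ℤ) * (13 * (D / q)) by rw [mul_left_comm, ← e],
      show 128 * D ^ 2 = (q : ℤ) ^ 2 * (128 * (D / q) ^ 2) by
        rw [mul_left_comm, ← mul_pow, ← e]] at h1
    obtain ⟨r, hr, hr0, hr2⟩ := root_of_PC hz hqz hB h1
    refine ⟨r, ?_, hr0, hr2⟩
    push_cast at hr ⊢
    exact hr
  refine ⟨T, ?_, ?_, hzT⟩
  · intro q hq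
    obtain ⟨q2, hqp, hqz⟩ := (hT q).1 hq
    haveI : Fact q.Prime := ⟨hqp⟩
    have hqD := hdiv q hq
    have q7 : q ≠ 7 := by rintro rfl; exact h7 hqD
    rw [mem_Cw hD0]
    refine ⟨hqp, hqD, ?_⟩
    obtain ⟨r, hr, -, -⟩ := hroot q hqp q2 hqD hqz
    have hnd := not_dvd_of_sqf hqp hD (ediv hqD)
    have hM : ((D / q : ℤ) : ZMod q) ≠ 0 := by
      rw [Ne, ZMod.intCast_zmod_eq_zero_iff_dvd]; exact hnd
    have n7 := seven_ne q7
    set M := ((D / q : ℤ) : ZMod q)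
    refine ⟨(2 * r + 13 * M) / (7 * M), ?_⟩
    field_simp
    linear_combination -4 * hr
  · intro p hp
    obtain ⟨hpp, hpD, hp2⟩ := (mem_Rw hD0).1 hp
    haveI : Fact p.Prime := ⟨hpp⟩
    have p2 : p ≠ 2 := by rintro rfl; exact h2 hpD
    have n2 := two_ne p2
    have hmul : ∀ {w : ZMod p}, IsSquare (2 * w) → IsSquare w := by
      rintro w ⟨t, ht⟩
      obtain ⟨s, hs⟩ := hp2
      have hs0 : s ≠ 0 := by rintro rfl; exact n2 (by rw [hs]; ring)
      refine ⟨t / s, ?_⟩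
      rw [div_mul_div_comm, ← hs, ← ht]
      field_simp
    refine ⟨fun hpT => ?_, fun hpT => ?_⟩
    · have hpz : ¬ (p : ℤ) ∣ z := fun h0 => hpT ((hT p).2 ⟨p2, hpp, h0⟩)
      have hnd := not_dvd_of_sqf hpp hD (ediv hpD)
      have h1 := h p
      rw [ediv hpD] at h1
      have h3 := sq_of_PC hpz hnd (nd128 hpp p2) (by
        obtain ⟨s, hs⟩ := hp2
        refine ⟨8 * s, ?_⟩
        push_cast
        linear_combination 64 * hs) h1
      rcases hzT with h4 | h4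
      · rw [h4] at h3
        push_cast at h3
        exact h3
      · rw [h4] at h3
        push_cast at h3
        exact hmul h3
    · obtain ⟨-, -, hpz⟩ := (hT p).1 hpT
      obtain ⟨r, hr, -, hr2⟩ := hroot p hpp p2 hpD hpz
      refine ⟨r, hr, ?_⟩
      rcases hzT with h4 | h4
      · have h5 := hr2 (∏ q ∈ T.erase p, (q : ℤ)) (by
          rw [h4, ← Finset.mul_prod_erase T (fun r : ℕ => (r : ℤ)) hpT])
        push_cast at h5
        exact h5
      · have h5 := hr2 (2 * ∏ q ∈ T.erase p, (q : ℤ)) (by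
          rw [h4, ← Finset.mul_prod_erase T (fun r : ℕ => (r : ℤ)) hpT]
          ring)
        push_cast at h5
        refine hmul ?_
        rw [show (2 : ZMod p) * (r * ∏ q ∈ T.erase p, (q : ZMod p)) =
          r * (2 * ∏ q ∈ T.erase p, (q : ZMod p)) by ring]
        exact h5

end Pool.Agent.NH5.GD
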