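import Pool.Agent.NH5.GD.Desc

/-!
# The second isogeny Selmer set of the twists of `X_0(14)`
-/

set_option autoImplicit false
set_option linter.style.haveILetI false

namespace Pool.Agent.NH5.GD

open Finset
open Pool.Agent.Y700 (PC)
open Pool.Agent.Y814.BSD14 Pool.Agent.Y809.BSD14

theorem pc_neg {a b z : ℤ} (hz : z % 8 = 7) (h : PC a b 2 z) : PC a b 2 (-1) := by
  obtain ⟨x, y, hy, h1, t, ht⟩ := h
  refine ⟨x, y, hy, h1, ?_⟩
  have h8 : (-z) % 8 = 1 := by omega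
  obtain ⟨w, hw⟩ := Pool.Agent.Z702.padic_sq2 h8
  have hz0 : (z : ℚ_[2]) ≠ 0 := by
    have : z ≠ 0 := by omega
    exact_mod_cast this
  have hw0 : w ≠ 0 := by
    rintro rfl
    push_cast at hw
    apply hz0
    linear_combination -hw
  push_cast at hw ⊢
  refine ⟨t / w, ?_⟩
  rw [div_mul_div_comm, eq_div_iff (mul_ne_zero hw0 hw0)]
  linear_combination ht + x * hw

theorem mod8_prod (T : Finset ℕ) (h : ∀ q ∈ T, q % 8 = 1 ∨ q % 8 = 7) :
    (∏ q ∈ T, st q) % 8 = 1 := by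
  classical
  induction T using Finset.induction_on with
  | empty => rfl
  | insert a s ha ih =>
    rw [Finset.prod_insert ha, Int.mul_emod, ih fun q hq => h q (mem_insert_of_mem hq)]
    have h1 : st a % 8 = 1 := by
      rcases h a (mem_insert_self a s) with h2 | h2
      · unfold st
        rw [if_pos (by omega)]
        omega
      · unfold st
        rw [if_neg (by omega)]
        omega
    rw [h1]
    rfl

theorem st_natAbs (q : ℕ) : (st q).natAbs = q := by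
  unfold st
  split_ifs
  · exact Int.natAbs_natCast q
  · rw [Int.natAbs_neg, Int.natAbs_natCast]

theorem natAbs_prod_st (T : Finset ℕ) : (∏ q ∈ T, st q).natAbs = ∏ q ∈ T, q := by
  classical
  induction T using Finset.induction_on with
  | empty => rfl
  | insert a s ha ih => rw [prod_insert ha, prod_insert ha, Int.natAbs_mul, ih, st_natAbs]

/-- **the second set** -/
theorem selB {D : ℤ} (hD : Squarefree D) (h4 : D % 4 = 1) (h7 : ¬ (7 : ℤ) ∣ D) {z : ℤ}
    (hz : Squarefree z)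
    (h : ∀ (l : ℕ) [Fact l.Prime], PC (-26 * D) (-343 * D ^ 2) l z) :
    ∃ T ⊆ Rw D, K2 D T ∧ (z = ∏ q ∈ T, st q ∨ z = -7 * ∏ q ∈ T, st q) := by
  classical
  have hD0 : D ≠ 0 := hD.ne_zero
  have h2 : ¬ (2 : ℤ) ∣ D := by omega
  have hz00 : z.natAbs ≠ 0 := Int.natAbs_ne_zero.2 hz.ne_zero
  obtain ⟨T, hTd⟩ : ∃ T, T = z.natAbs.primeFactors.erase 7 := ⟨_, rfl⟩
  have hT : ∀ q, q ∈ T ↔ q ≠ 7 ∧ q.Prime ∧ (q : ℤ) ∣ z := by
    intro q
    rw [hTd, mem_erase, Nat.mem_primeFactors, Int.natCast_dvd]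
    tauto
  -- `2` does not divide `z`
  have z2 : ¬ (2 : ℤ) ∣ z := by
    refine not_dvd_of_PC (l := 2) hz ?_ (h 2)
    intro h0
    have h1 : Prime ((2 : ℕ) : ℤ) := Nat.prime_iff_prime_int.1 Nat.prime_two
    rcases h1.dvd_or_dvd h0 with h3 | h3
    · norm_num at h3
    · exact h2 (h1.dvd_of_dvd_pow h3)
  have hdiv : ∀ q ∈ T, (q : ℤ) ∣ D := by
    intro q hq
    obtain ⟨q2, hqp, hqz⟩ := (hT q).1 hq
    haveI : Fact q.Prime := ⟨hqp⟩
    by_contra hcon
    refine not_dvd_of_PC hz ?_ (h q) hqz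
    intro h0
    rcases (Nat.prime_iff_prime_int.1 hqp).dvd_or_dvd h0 with h1 | h1
    · exact dvd_343 hqp q2 h1
    · exact hcon ((Nat.prime_iff_prime_int.1 hqp).dvd_of_dvd_pow h1)
  have hroot : ∀ q : ℕ, q.Prime → q ≠ 7 → (q : ℤ) ∣ D → (q : ℤ) ∣ z → ∃ r : ZMod q,
      r ^ 2 - 26 * ((D / q : ℤ) : ZMod q) * r - 343 * ((D / q : ℤ) : ZMod q) ^ 2 = 0 ∧ r ≠ 0 ∧
      ∀ z' : ℤ, z = q * z' → IsSquare (r * (z' : ZMod q)) := by
    intro q hq q2 hqD hqz
    haveI : Fact q.Prime := ⟨hq⟩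
    have e := ediv hqD
    have hnd := not_dvd_of_sqf hq hD e
    have hB : ¬ (q : ℤ) ∣ -343 * (D / q) ^ 2 := by
      intro h0
      rcases (Nat.prime_iff_prime_int.1 hq).dvd_or_dvd h0 with h1 | h1
      · exact dvd_343 hq q2 h1
      · exact hnd ((Nat.prime_iff_prime_int.1 hq).dvd_of_dvd_pow h1)
    have h1 := h q
    rw [show -26 * D = (q : ℤ) * (-26 * (D / q)) by rw [mul_left_comm, ← e],
      show -343 * D ^ 2 = (q : ℤ) ^ 2 * (-343 * (D / q) ^ 2) by
        rw [mul_left_comm, ← mul_pow, ← e]] at h1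
    obtain ⟨r, hr, hr0, hr2⟩ := root_of_PC hz hqz hB h1
    refine ⟨r, ?_, hr0, hr2⟩
    push_cast at hr ⊢
    linear_combination hr
  have hTR : T ⊆ Rw D := by
    intro q hq
    obtain ⟨q7, hqp, hqz⟩ := (hT q).1 hq
    haveI : Fact q.Prime := ⟨hqp⟩
    have hqD := hdiv q hq
    have q2 : q ≠ 2 := by rintro rfl; exact h2 hqD
    rw [mem_Rw hD0]
    refine ⟨hqp, hqD, ?_⟩
    obtain ⟨r, hr, -, -⟩ := hroot q hqp q7 hqD hqz
    have hnd := not_dvd_of_sqf hqp hD (ediv hqD)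
    have hM : ((D / q : ℤ) : ZMod q) ≠ 0 := by
      rw [Ne, ZMod.intCast_zmod_eq_zero_iff_dvd]; exact hnd
    have n2 := two_ne q2
    have n16 : (16 : ZMod q) ≠ 0 := by
      rw [show (16 : ZMod q) = 2 ^ 4 by norm_num]; exact pow_ne_zero _ n2
    set M := ((D / q : ℤ) : ZMod q)
    refine ⟨(r - 13 * M) / (16 * M), ?_⟩
    field_simp
    linear_combination -hr
  have hT8 : ∀ q ∈ T, q % 8 = 1 ∨ q % 8 = 7 := by
    intro q hq
    obtain ⟨hqp, hqD, hq2⟩ := (mem_Rw hD0).1 (hTR hq)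
    haveI : Fact q.Prime := ⟨hqp⟩
    have q2 : q ≠ 2 := by rintro rfl; exact h2 hqD
    exact (ZMod.exists_sq_eq_two_iff q2).1 hq2
  have hz8 : z % 8 ≠ 7 := fun h0 => not_neg_one h4 (pc_neg h0 (h 2))
  have h8 := mod8_prod T hT8
  have hzT : z = ∏ q ∈ T, st q ∨ z = -7 * ∏ q ∈ T, st q := by
    have e2 := natAbs_prod_st T
    rcases natAbs_split hz 7 with h1 | h1
    · left
      rw [← hTd, ← e2] at h1
      rcases Int.natAbs_eq_natAbs_iff.1 h1 with h3 | h3
      · exact h3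
      · exfalso; omega
    · right
      rw [← hTd, ← e2, show 7 * (∏ q ∈ T, st q).natAbs = (7 * ∏ q ∈ T, st q).natAbs by
        rw [Int.natAbs_mul]; rfl] at h1
      rcases Int.natAbs_eq_natAbs_iff.1 h1 with h3 | h3
      · exfalso; omega
      · rw [h3]; ring
  refine ⟨T, hTR, ?_, hzT⟩
  intro p hp
  obtain ⟨hpp, hpD, hp7s⟩ := (mem_Cw hD0).1 hp
  haveI : Fact p.Prime := ⟨hpp⟩
  have p7 : p ≠ 7 := by rintro rfl; exact h7 hpD
  have n7 := seven_ne p7
  have hmul : ∀ {w : ZMod p}, IsSquare (-7 * w) → IsSquare w := by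
    rintro w ⟨t, ht⟩
    obtain ⟨s, hs⟩ := hp7s
    have hs0 : s ≠ 0 := by
      rintro rfl
      apply n7
      linear_combination -hs
    refine ⟨t / s, ?_⟩
    rw [div_mul_div_comm, ← hs, ← ht]
    field_simp
  refine ⟨fun hpT => ?_, fun hpT => ?_⟩
  · have hpz : ¬ (p : ℤ) ∣ z := fun h0 => hpT ((hT p).2 ⟨p7, hpp, h0⟩)
    have hnd := not_dvd_of_sqf hpp hD (ediv hpD)
    have h1 := h p
    rw [ediv hpD] at h1
    have h3 := sq_of_PC hpz hnd (dvd_343 hpp p7) (by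
      obtain ⟨s, hs⟩ := hp7s
      refine ⟨7 * s, ?_⟩
      push_cast
      linear_combination 49 * hs) h1
    rcases hzT with h5 | h5
    · rw [h5] at h3
      push_cast at h3
      exact h3
    · rw [h5] at h3
      push_cast at h3
      exact hmul h3
  · obtain ⟨-, -, hpz⟩ := (hT p).1 hpT
    obtain ⟨r, hr, -, hr2⟩ := hroot p hpp p7 hpD hpz
    refine ⟨r, hr, ?_⟩
    rcases hzT with h5 | h5
    · have h6 := hr2 (sg p * ∏ q ∈ T.erase p, st q) (by
        rw [h5, ← Finset.mul_prod_erase T st hpT, st_eq p]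
        ring)
      push_cast at h6
      exact h6
    · have h6 := hr2 (-7 * (sg p * ∏ q ∈ T.erase p, st q)) (by
        rw [h5, ← Finset.mul_prod_erase T st hpT, st_eq p]
        ring)
      push_cast at h6
      refine hmul ?_
      rw [show (-7 : ZMod p) * (r * (sg p * ∏ q ∈ T.erase p, (st q : ZMod p))) =
        r * (-7 * (sg p * ∏ q ∈ T.erase p, (st q : ZMod p))) by ring]
      exact h6

end Pool.Agent.NH5.GD
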