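import Pool.Agent.NH5.GD.Mat
import Pool.Agent.NH5.AB.Loc
import Pool.Agent.Z702.Main

/-!
# Local points for the members of the second isogeny Selmer set
-/

set_option autoImplicit false
set_option linter.style.haveILetI false

namespace Pool.Agent.NH5.GD

open Finset
open Pool.Agent.Z702 (LocI S_LQ S_LG padic_sq padic_sq2)
open Pool.Agent.Y814.BSD14 Pool.Agent.Y809.BSD14
open Pool.Agent.NH5.AB (unit_sq_padic unit_of_toZMod)

/-- the primes which divide `d` -/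
theorem loc_T {p : ℕ} [hp : Fact p.Prime] (p2 : p ≠ 2) (p7 : p ≠ 7) (hs2 : IsSquare (2 : ZMod p))
    {M' d' : ℤ} (hM' : ¬ (p : ℤ) ∣ M') (hd' : ¬ (p : ℤ) ∣ d')
    (h : ∃ r : ZMod p, r ^ 2 - 26 * (M' : ZMod p) * r - 343 * (M' : ZMod p) ^ 2 = 0 ∧
      IsSquare (r * (d' : ZMod p))) :
    LocI ℚ_[p] (13 * (p * M')) (128 * (p * M') ^ 2) (p * d') := by
  have hM0 : (M' : ZMod p) ≠ 0 := by
    rw [Ne, ZMod.intCast_zmod_eq_zero_iff_dvd]; exact hM'
  have hd0 : (d' : ZMod p) ≠ 0 := by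
    rw [Ne, ZMod.intCast_zmod_eq_zero_iff_dvd]; exact hd'
  obtain ⟨r, hr, hrs⟩ := h
  -- the square root of two
  obtain ⟨t, ht⟩ : ∃ t : ℤ_[p], (2 : ℤ_[p]) = t ^ 2 := by
    have h2 : PadicInt.toZMod (2 : ℤ_[p]) = 2 := map_ofNat _ 2
    refine unit_sq_padic p2 (unit_of_toZMod ?_) ?_
    · rw [h2]
      exact two_ne p2
    · rw [h2]
      exact hs2
  obtain ⟨τ, hτ⟩ : ∃ τ : ZMod p, τ = PadicInt.toZMod t := ⟨_, rfl⟩
  have hτ2 : (2 : ZMod p) = τ ^ 2 := by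
    have h2 : PadicInt.toZMod (2 : ℤ_[p]) = 2 := map_ofNat _ 2
    have := congrArg (PadicInt.toZMod (p := p)) ht
    rw [h2, map_pow, ← hτ] at this
    exact this
  have hr2 : (r - 13 * M' - 16 * τ * M') * (r - 13 * M' + 16 * τ * M') = 0 := by
    linear_combination hr + 256 * (M' : ZMod p) ^ 2 * hτ2
  have c13 : PadicInt.toZMod (13 : ℤ_[p]) = 13 := map_ofNat _ 13
  have c16 : PadicInt.toZMod (16 : ℤ_[p]) = 16 := map_ofNat _ 16
  obtain ⟨e, he2, hre⟩ : ∃ e : ℤ_[p], (2 : ℤ_[p]) = e ^ 2 ∧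
      r = PadicInt.toZMod ((M' : ℤ_[p]) * (13 + 16 * e)) := by
    rcases mul_eq_zero.1 hr2 with h | h
    · refine ⟨t, ht, ?_⟩
      rw [map_mul, map_add, map_mul, map_intCast, c13, c16, ← hτ]
      linear_combination h
    · refine ⟨-t, by rw [neg_sq]; exact ht, ?_⟩
      rw [map_mul, map_add, map_mul, map_neg, map_intCast, c13, c16, ← hτ]
      linear_combination h
  have hr0 := root_ne2 p7 hM0 hr
  have hunit : ‖((M' : ℤ_[p]) * (13 + 16 * e)) * (d' : ℤ_[p])‖ = 1 := by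
    apply unit_of_toZMod
    rw [map_mul, ← hre, map_intCast]
    exact mul_ne_zero hr0 hd0
  obtain ⟨z, hz⟩ := unit_sq_padic p2 hunit (by
    rw [map_mul, ← hre, map_intCast]
    exact hrs)
  have hz' : ((M' : ℚ_[p]) * (13 + 16 * (e : ℚ_[p]))) * (d' : ℚ_[p]) = (z : ℚ_[p]) ^ 2 := by
    have := congrArg (fun w : ℤ_[p] => (w : ℚ_[p])) hz
    push_cast at this
    exact this
  have he' : (2 : ℚ_[p]) = (e : ℚ_[p]) ^ 2 := by
    have := congrArg (fun w : ℤ_[p] => (w : ℚ_[p])) he2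
    push_cast at this
    exact this
  have hp0 : (p : ℚ_[p]) ≠ 0 := by exact_mod_cast hp.out.ne_zero
  have hdp : (d' : ℚ_[p]) ≠ 0 := by
    have : d' ≠ 0 := by rintro rfl; exact hd' (dvd_zero _)
    exact_mod_cast this
  have hz0 : (z : ℚ_[p]) ^ 2 ≠ 0 := by
    have : z ≠ 0 := by
      rintro rfl
      rw [hz] at hunit
      simp at hunit
    have h3 : (z : ℚ_[p]) ≠ 0 := by
      intro h
      exact this (Subtype.ext h)
    exact pow_ne_zero 2 h3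
  have hX0 : (M' : ℚ_[p]) * (13 + 16 * (e : ℚ_[p])) ≠ 0 := by
    intro h0
    rw [h0, zero_mul] at hz'
    exact hz0 hz'.symm
  refine ⟨(p : ℚ_[p]) * ((M' : ℚ_[p]) * (13 + 16 * (e : ℚ_[p]))), 0, z / d',
    mul_ne_zero hp0 hX0, ?_, ?_⟩
  · push_cast
    linear_combination (256 * (p : ℚ_[p]) ^ 3 * (M' : ℚ_[p]) ^ 3 * (13 + 16 * (e : ℚ_[p]))) * he'
  · rw [div_pow, ← hz']
    push_cast
    field_simp

theorem dec7' : ∀ x : ZMod 7, x ≠ 0 → IsSquare x ∨ (x = 3 ∨ x = 5 ∨ x = 6) := by decide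

/-- the place seven -/
theorem loc_7 [Fact (Nat.Prime 7)] (hq : S_LQ) {M d : ℤ} (hM : ¬ (7 : ℤ) ∣ M) (hd : ¬ (7 : ℤ) ∣ d) :
    LocI ℚ_[7] (13 * M) (128 * M ^ 2) d := by
  have hM0 : (M : ZMod 7) ≠ 0 := by
    rw [Ne, ZMod.intCast_zmod_eq_zero_iff_dvd]; exact_mod_cast hM
  have hd0 : (d : ZMod 7) ≠ 0 := by
    rw [Ne, ZMod.intCast_zmod_eq_zero_iff_dvd]; exact_mod_cast hd
  have hMz : M ≠ 0 := by rintro rfl; exact hM (dvd_zero _)
  have hdz : d ≠ 0 := by rintro rfl; exact hd (dvd_zero _)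
  have hM2 : 0 < M ^ 2 := by positivity
  rcases dec7' _ hd0 with h | hA
  · exact (hq (13 * M) (128 * M ^ 2) d (by positivity) (by nlinarith) hdz).1 7
      (Or.inl (padic_sq (by norm_num) (by exact_mod_cast hd) h))
  obtain ⟨r, hr0, hr⟩ := Pool.Agent.NH5.AB.dec7 _ _ hA hM0
  obtain ⟨s, rfl⟩ := ZMod.intCast_surjective r
  obtain ⟨X, hX⟩ : ∃ X : ℤ, X = d * s ^ 2 := ⟨_, rfl⟩
  obtain ⟨N, hN⟩ : ∃ N : ℤ, N = X * (X ^ 2 - 26 * M * X - 343 * M ^ 2) := ⟨_, rfl⟩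
  have hNc : (N : ZMod 7) = (d : ZMod 7) * (s : ZMod 7) ^ 2 *
      (((d : ZMod 7) * (s : ZMod 7) ^ 2) ^ 2 - 26 * (M : ZMod 7) *
        ((d : ZMod 7) * (s : ZMod 7) ^ 2) - 343 * (M : ZMod 7) ^ 2) := by
    rw [hN, hX]
    push_cast
    ring
  have hN0 : ¬ ((7 : ℕ) : ℤ) ∣ N := by
    rw [← ZMod.intCast_zmod_eq_zero_iff_dvd, hNc]
    exact hr0
  obtain ⟨y, hy⟩ := padic_sq (p := 7) (by norm_num) hN0 (by rw [hNc]; exact hr)
  have hX0 : (X : ℚ_[7]) ≠ 0 := by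
    have : X ≠ 0 := by
      rintro h
      apply hN0
      rw [hN, h]
      simp
    exact_mod_cast this
  refine ⟨X, y, s, hX0, ?_, ?_⟩
  · rw [pow_two y, ← hy, hN]
    push_cast
    ring
  · rw [hX]
    push_cast
    ring

/-- the real place -/
theorem loc_R (hq : S_LQ) {M d : ℤ} (hM : M ≠ 0) (hd : d ≠ 0) : LocI ℝ (13 * M) (128 * M ^ 2) d := by
  have hM2 : 0 < M ^ 2 := by positivity
  rcases lt_or_gt_of_ne hd with h | h
  · have hdR : (d : ℝ) < 0 := by exact_mod_cast h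
    have hMR : (M : ℝ) ≠ 0 := by exact_mod_cast hM
    have hMa : 0 < |(M : ℝ)| := abs_pos.2 hMR
    have hle : (M : ℝ) * |(M : ℝ)| ≤ |(M : ℝ)| ^ 2 := by
      rw [pow_two]
      exact mul_le_mul_of_nonneg_right (le_abs_self _) (abs_nonneg _)
    have hsq : |(M : ℝ)| ^ 2 = (M : ℝ) ^ 2 := sq_abs _
    have hpos : 0 ≤ (-|(M : ℝ)|) ^ 3 - 26 * M * (-|(M : ℝ)|) ^ 2 +
        ((13 * (M : ℝ)) ^ 2 - 4 * (128 * (M : ℝ) ^ 2)) * (-|(M : ℝ)|) := by
      have e : (-|(M : ℝ)|) ^ 3 - 26 * M * (-|(M : ℝ)|) ^ 2 +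
        ((13 * (M : ℝ)) ^ 2 - 4 * (128 * (M : ℝ) ^ 2)) * (-|(M : ℝ)|) =
        |(M : ℝ)| * (343 * (M : ℝ) ^ 2 - |(M : ℝ)| ^ 2 - 26 * (M * |(M : ℝ)|)) := by
        ring
      rw [e]
      refine mul_nonneg hMa.le ?_
      rw [hsq]
      rw [hsq] at hle
      nlinarith [sq_nonneg (M : ℝ)]
    refine ⟨-|(M : ℝ)|, Real.sqrt ((-|(M : ℝ)|) ^ 3 - 26 * M * (-|(M : ℝ)|) ^ 2 +
        ((13 * (M : ℝ)) ^ 2 - 4 * (128 * (M : ℝ) ^ 2)) * (-|(M : ℝ)|)),
      Real.sqrt (|(M : ℝ)| / (-d)), ?_, ?_, ?_⟩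
    · exact (neg_lt_zero.2 hMa).ne
    · rw [Real.sq_sqrt hpos]
      push_cast
      ring
    · rw [Real.sq_sqrt (div_nonneg (abs_nonneg _) (by linarith))]
      field_simp
  · exact (hq (13 * M) (128 * M ^ 2) d (by positivity) (by nlinarith) hd).2 h

theorem st_prod_ne {l : ℕ} (hl : l.Prime) {T : Finset ℕ} (hT : ∀ q ∈ T, q.Prime) (h : l ∉ T) :
    ¬ (l : ℤ) ∣ ∏ q ∈ T, st q := by
  intro h1
  have h2 : l ∣ (∏ q ∈ T, st q).natAbs := Int.natCast_dvd.1 h1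
  rw [natAbs_prod_st] at h2
  obtain ⟨q, hq, hlq⟩ := (Nat.Prime.prime hl).exists_mem_finset_dvd h2
  have := (Nat.prime_dvd_prime_iff_eq hl (hT q hq)).1 hlq
  exact h (this ▸ hq)

/-- **local points everywhere** -/
theorem loc_all (hq : S_LQ) (hg : S_LG) {D : ℤ} (hD : Adm D) {T : Finset ℕ} (hT : T ⊆ Rw D)
    (hk : K2 D T) : (∀ (l : ℕ) [Fact l.Prime], LocI ℚ_[l] (13 * D) (128 * D ^ 2) (∏ q ∈ T, st q)) ∧
    LocI ℝ (13 * D) (128 * D ^ 2) (∏ q ∈ T, st q) := by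
  classical
  have hD0 := hD.n0
  have hD2 : 0 < D ^ 2 := by positivity
  have hTp : ∀ q ∈ T, q.Prime := fun q h => ((mem_Rw hD0).1 (hT h)).1
  have hd0 : ∏ q ∈ T, st q ≠ 0 := by
    rw [← Int.natAbs_ne_zero, natAbs_prod_st, prod_ne_zero_iff]
    exact fun q hq => (hTp q hq).ne_zero
  refine ⟨fun l hl => ?_, loc_R hq hD0 hd0⟩
  obtain ⟨q1, -⟩ := hq (13 * D) (128 * D ^ 2) (∏ q ∈ T, st q) (by positivity) (by nlinarith) hd0
  have hl2T : 2 ∉ T := fun h => hD.ne2 ((mem_Rw hD0).1 (hT h)).2.1 rfl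
  have hl7T : 7 ∉ T := fun h => hD.ne7 ((mem_Rw hD0).1 (hT h)).2.1 rfl
  by_cases l2 : l = 2
  · subst l2
    refine q1 2 (Or.inl (padic_sq2 (mod8_prod T ?_)))
    intro q hq
    obtain ⟨hqp, hqD, hq2⟩ := (mem_Rw hD0).1 (hT hq)
    haveI : Fact q.Prime := ⟨hqp⟩
    exact (ZMod.exists_sq_eq_two_iff (hD.ne2 hqD)).1 hq2
  by_cases l7 : l = 7
  · subst l7
    exact loc_7 hq hD.n7 (st_prod_ne hl.out hTp hl7T)
  by_cases lT : l ∈ T
  · obtain ⟨-, hlD, hl2⟩ := (mem_Rw hD0).1 (hT lT)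
    have e1 := ediv hlD
    have e2 : ∏ q ∈ T, st q = (l : ℤ) * (sg l * ∏ q ∈ T.erase l, st q) := by
      rw [← Finset.mul_prod_erase T st lT, st_eq l]
      ring
    have hM := not_dvd_of_sqf hl.out hD.sqf e1
    have hd' : ¬ (l : ℤ) ∣ sg l * ∏ q ∈ T.erase l, st q := by
      intro h
      rcases (Nat.prime_iff_prime_int.1 hl.out).dvd_or_dvd h with h1 | h1
      · have h3 := (ZMod.intCast_zmod_eq_zero_iff_dvd (sg l) l).2 h1
        exact sg_ne h3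
      · exact st_prod_ne hl.out (fun q hq => hTp q (mem_of_mem_erase hq)) (notMem_erase l T) h1
    have hM0 := hD.M0 hl.out hlD
    have hdz : (((sg l * ∏ q ∈ T.erase l, st q : ℤ)) : ZMod l) ≠ 0 := by
      rw [Ne, ZMod.intCast_zmod_eq_zero_iff_dvd]; exact hd'
    rw [e2]
    conv => arg 2; rw [e1]
    conv => arg 3; rw [e1]
    refine loc_T l2 l7 hl2 hM hd' ?_
    by_cases lC : l ∈ Cw D
    · obtain ⟨r, hr, hs⟩ := (hk l lC).2 lT
      refine ⟨r, hr, ?_⟩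
      push_cast
      exact hs
    · have hns : ¬ IsSquare (-7 : ZMod l) := fun h => lC ((mem_Cw hD0).2 ⟨hl.out, hlD, h⟩)
      obtain ⟨s, hs⟩ := hl2
      set m := ((D / l : ℤ) : ZMod l) with hm
      obtain ⟨y1, h1⟩ : ∃ y : ZMod l, y = m * (13 + 16 * s) := ⟨_, rfl⟩
      obtain ⟨y2, h2⟩ : ∃ y : ZMod l, y = m * (13 - 16 * s) := ⟨_, rfl⟩
      have hy1 : y1 ^ 2 - 26 * m * y1 - 343 * m ^ 2 = 0 := by
        rw [h1]; linear_combination -(256 * m ^ 2) * hs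
      have hy2 : y2 ^ 2 - 26 * m * y2 - 343 * m ^ 2 = 0 := by
        rw [h2]; linear_combination -(256 * m ^ 2) * hs
      by_contra hcon
      push Not at hcon
      have c1 := hcon y1 hy1
      have c2 := hcon y2 hy2
      have n1 := root_ne2 l7 hM0 hy1
      have n2 := root_ne2 l7 hM0 hy2
      have n7 := seven_ne l7
      have e5 : q2 ((y1 * ((sg l * ∏ q ∈ T.erase l, st q : ℤ) : ZMod l)) *
          (y2 * ((sg l * ∏ q ∈ T.erase l, st q : ℤ) : ZMod l))) = 0 := by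
        rw [q2_mul l2 (mul_ne_zero n1 hdz) (mul_ne_zero n2 hdz)]
        unfold q2
        rw [if_neg c1, if_neg c2]
        decide
      have e6 : (y1 * ((sg l * ∏ q ∈ T.erase l, st q : ℤ) : ZMod l)) *
          (y2 * ((sg l * ∏ q ∈ T.erase l, st q : ℤ) : ZMod l)) =
          -7 * ((7 * m * ((sg l * ∏ q ∈ T.erase l, st q : ℤ) : ZMod l)) *
            (7 * m * ((sg l * ∏ q ∈ T.erase l, st q : ℤ) : ZMod l))) := by
        rw [h1, h2]
        linear_combination (256 * m ^ 2 * ((sg l * ∏ q ∈ T.erase l, st q : ℤ) : ZMod l) ^ 2) * hs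
      have n77 : (7 * m * ((sg l * ∏ q ∈ T.erase l, st q : ℤ) : ZMod l)) ≠ 0 :=
        mul_ne_zero (mul_ne_zero n7 hM0) hdz
      rw [e6, q2_mul l2 (neg_ne_zero.2 n7) (mul_ne_zero n77 n77), q2_eq_zero.2 ⟨_, rfl⟩, add_zero,
        q2_eq_zero] at e5
      exact hns e5
  have hld := st_prod_ne hl.out hTp lT
  by_cases lD : (l : ℤ) ∣ D
  · have hdz : (((∏ q ∈ T, st q : ℤ)) : ZMod l) ≠ 0 := by
      rw [Ne, ZMod.intCast_zmod_eq_zero_iff_dvd]; exact hld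
    by_cases hs : IsSquare ((∏ q ∈ T, st q : ℤ) : ZMod l)
    · exact q1 l (Or.inl (padic_sq l2 hld hs))
    · have lC : l ∉ Cw D := by
        intro lC
        apply hs
        have := (hk l lC).1 lT
        push_cast
        exact this
      have hns : ¬ IsSquare (-7 : ZMod l) := fun h => lC ((mem_Cw hD0).2 ⟨hl.out, lD, h⟩)
      have n7 := seven_ne l7
      have hprod : IsSquare (((-7 * ∏ q ∈ T, st q : ℤ)) : ZMod l) := by
        rw [Int.cast_mul, ← q2_eq_zero, q2_mul l2 (by push_cast; exact neg_ne_zero.2 n7) hdz]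
        unfold q2
        rw [if_neg (by push_cast; exact hns), if_neg hs]
        decide
      obtain ⟨r, hr⟩ := padic_sq (p := l) l2 (n := -7 * ∏ q ∈ T, st q) (by
        intro h
        rcases (Nat.prime_iff_prime_int.1 hl.out).dvd_or_dvd h with h | h
        · rw [dvd_neg] at h
          have h' : l ∣ 7 := by exact_mod_cast h
          exact l7 ((Nat.prime_dvd_prime_iff_eq hl.out (by norm_num)).1 h')
        · exact hld h) hprod
      refine q1 l (Or.inr ⟨7 * D * r, ?_⟩)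
      rw [Int.cast_mul] at hr
      push_cast at hr ⊢
      linear_combination (49 * (D : ℚ_[l]) ^ 2) * hr
  · exact hg l D _ l2 l7 lD hld

end Pool.Agent.NH5.GD
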