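import Pool.Agent.NH5.GD.DescB

/-!
# The matrix over `𝔽₂` which governs the two isogeny Selmer sets
-/

set_option autoImplicit false
set_option linter.style.haveILetI false

namespace Pool.Agent.NH5.GD

open Finset
open Pool.Agent.Y814.BSD14 Pool.Agent.Y809.BSD14

noncomputable section

open Classical in
/-- `0` for squares, `1` for nonsquares -/
def q2 {p : ℕ} (x : ZMod p) : ZMod 2 := if IsSquare x then 0 else 1

theorem q2_eq_zero {p : ℕ} {x : ZMod p} : q2 x = 0 ↔ IsSquare x := by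
  unfold q2
  split_ifs with h
  · simp [h]
  · simp [h]

section

variable {p : ℕ} [hp : Fact p.Prime]

theorem q2_mul (_ : p ≠ 2) {x y : ZMod p} (hx : x ≠ 0) (hy : y ≠ 0) :
    q2 (x * y) = q2 x + q2 y := by
  have key : ∀ {w : ZMod p}, w ≠ 0 → ((q2 w = 0 ∧ quadraticChar (ZMod p) w = 1) ∨
      (q2 w = 1 ∧ quadraticChar (ZMod p) w = -1)) := by
    intro w hw
    by_cases hs : IsSquare w
    · exact Or.inl ⟨q2_eq_zero.2 hs, (quadraticChar_one_iff_isSquare hw).2 hs⟩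
    · refine Or.inr ⟨?_, quadraticChar_neg_one_iff_not_isSquare.2 hs⟩
      unfold q2
      rw [if_neg hs]
  have hm := map_mul (quadraticChar (ZMod p)) x y
  rcases key hx with ⟨a1, a2⟩ | ⟨a1, a2⟩ <;> rcases key hy with ⟨b1, b2⟩ | ⟨b1, b2⟩ <;>
    rcases key (mul_ne_zero hx hy) with ⟨c1, c2⟩ | ⟨c1, c2⟩ <;> rw [a1, b1, c1] <;>
    rw [a2, b2, c2] at hm <;> first | rfl | (exfalso; revert hm; decide)

theorem q2_one : q2 (1 : ZMod p) = 0 := q2_eq_zero.2 ⟨1, by ring⟩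

theorem q2_prod {ι : Type*} (h2 : p ≠ 2) (T : Finset ι) (f : ι → ZMod p) (h : ∀ i ∈ T, f i ≠ 0) :
    q2 (∏ i ∈ T, f i) = ∑ i ∈ T, q2 (f i) := by
  classical
  induction T using Finset.induction_on with
  | empty => rw [prod_empty, sum_empty]; exact q2_one
  | insert a s ha ih =>
    rw [prod_insert ha, sum_insert ha, q2_mul h2 (h a (mem_insert_self a s))
      (prod_ne_zero_iff.2 fun i hi => h i (mem_insert_of_mem hi)),
      ih fun i hi => h i (mem_insert_of_mem hi)]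

/-- quadratic reciprocity -/
theorem q2_st {q : ℕ} [hq : Fact q.Prime] (p2 : p ≠ 2) (q2' : q ≠ 2) (hpq : p ≠ q) :
    q2 (st q : ZMod p) = q2 ((p : ℕ) : ZMod q) := by
  have hpo : p % 4 = 1 ∨ p % 4 = 3 := by
    have := hp.out.eq_two_or_odd
    omega
  have hqo : q % 4 = 1 ∨ q % 4 = 3 := by
    have := hq.out.eq_two_or_odd
    omega
  have key : IsSquare (st q : ZMod p) ↔ IsSquare ((p : ℕ) : ZMod q) := by
    unfold st
    rcases hqo with h | h
    · rw [if_pos h]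
      push_cast
      exact ZMod.exists_sq_eq_prime_iff_of_mod_four_eq_one (p := q) (q := p) h p2 |>.symm
    · rw [if_neg (by omega)]
      push_cast
      have hq0 : (q : ZMod p) ≠ 0 := cast_ne hp.out hq.out hpq
      have e : (-(q : ZMod p)) = -1 * q := by ring
      rcases hpo with h1 | h1
      · have hm : IsSquare (-1 : ZMod p) := by
          rw [ZMod.exists_sq_eq_neg_one_iff]; omega
        rw [← ZMod.exists_sq_eq_prime_iff_of_mod_four_eq_one (p := p) (q := q) h1 q2', e,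
          ← q2_eq_zero, q2_mul p2 (neg_ne_zero.2 one_ne_zero) hq0, q2_eq_zero.2 hm, zero_add,
          q2_eq_zero]
      · have hm : ¬ IsSquare (-1 : ZMod p) := by
          rw [ZMod.exists_sq_eq_neg_one_iff]; omega
        have hm' : q2 (-1 : ZMod p) = 1 := by unfold q2; rw [if_neg hm]
        rw [e, ← q2_eq_zero, q2_mul p2 (neg_ne_zero.2 one_ne_zero) hq0, hm']
        have h3 := ZMod.exists_sq_eq_prime_iff_of_mod_four_eq_three (p := p) (q := q) h1 h hpq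
        constructor
        · intro h4
          by_contra h5
          have h6 : IsSquare (q : ZMod p) := h3.2 h5
          rw [q2_eq_zero.2 h6] at h4
          exact absurd h4 (by decide)
        · intro h4
          have h6 : ¬ IsSquare (q : ZMod p) := fun h7 => h3.1 h7 h4
          unfold q2
          rw [if_neg h6]
          decide
  unfold q2
  by_cases h : IsSquare ((p : ℕ) : ZMod q)
  · rw [if_pos h, if_pos (key.2 h)]
  · rw [if_neg h, if_neg fun h1 => h (key.1 h1)]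

/-- the two quadratic polynomials -/
theorem sq_xy {m x y : ZMod p} (hs : IsSquare (2 : ZMod p))
    (hx : x ^ 2 + 13 * m * x + 128 * m ^ 2 = 0) (hy : y ^ 2 - 26 * m * y - 343 * m ^ 2 = 0) :
    IsSquare (-1 * (x * y)) := by
  obtain ⟨s, hs⟩ := hs
  have h1 : (y - 13 * m - 16 * s * m) * (y - 13 * m + 16 * s * m) = 0 := by
    linear_combination hy + 256 * m ^ 2 * hs
  rcases mul_eq_zero.1 h1 with h | h
  · refine ⟨x - 8 * s * m, ?_⟩
    linear_combination -x * h - hx + 64 * m ^ 2 * hs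
  · refine ⟨x + 8 * s * m, ?_⟩
    linear_combination -x * h - hx + 64 * m ^ 2 * hs

/-- the two roots of the first polynomial -/
theorem sq_xx {m x y : ZMod p} (hm : m ≠ 0) (h2 : p ≠ 2) (hs : IsSquare (2 : ZMod p))
    (hx : x ^ 2 + 13 * m * x + 128 * m ^ 2 = 0) (hy : y ^ 2 + 13 * m * y + 128 * m ^ 2 = 0) :
    q2 x = q2 y := by
  by_cases h : x = y
  · rw [h]
  · have h1 : (x - y) * (x + y + 13 * m) = 0 := by linear_combination hx - hy
    have h3 := (mul_eq_zero.1 h1).resolve_left (sub_ne_zero.2 h)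
    have h4 : x * y = 128 * m ^ 2 := by linear_combination x * h3 - hx
    obtain ⟨s, hs⟩ := hs
    have h5 : IsSquare (x * y) := ⟨8 * s * m, by rw [h4]; linear_combination 64 * m ^ 2 * hs⟩
    have h6 : x * y ≠ 0 := by
      rw [h4, show (128 : ZMod p) = 2 ^ 7 by norm_num]
      exact mul_ne_zero (pow_ne_zero _ (two_ne h2)) (pow_ne_zero _ hm)
    have h7 := q2_eq_zero.2 h5
    rw [q2_mul h2 (left_ne_zero_of_mul h6) (right_ne_zero_of_mul h6)] at h7
    have : ∀ a b : ZMod 2, a + b = 0 → a = b := by decide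
    exact this _ _ h7

/-- existence of a root of the first polynomial -/
theorem ex_root1 {m : ZMod p} (h2 : p ≠ 2) (hs : IsSquare (-7 : ZMod p)) :
    ∃ x : ZMod p, x ^ 2 + 13 * m * x + 128 * m ^ 2 = 0 := by
  obtain ⟨s, hs⟩ := hs
  have n2 := two_ne h2
  refine ⟨m * (-13 + 7 * s) / 2, ?_⟩
  field_simp
  linear_combination -(49 * m ^ 2) * hs

/-- existence of a root of the second polynomial -/
theorem ex_root2 {m : ZMod p} (hs : IsSquare (2 : ZMod p)) :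
    ∃ x : ZMod p, x ^ 2 - 26 * m * x - 343 * m ^ 2 = 0 := by
  obtain ⟨s, hs⟩ := hs
  refine ⟨m * (13 + 16 * s), ?_⟩
  linear_combination -(256 * m ^ 2) * hs

end

open Classical in
/-- the diagonal entries -/
def dg (D : ℤ) (p : ℕ) : ZMod 2 :=
  if ∃ r : ZMod p, r ^ 2 + 13 * ((D / p : ℤ) : ZMod p) * r + 128 * ((D / p : ℤ) : ZMod p) ^ 2 = 0 ∧
    IsSquare r then 0 else 1

/-- the entries -/
def ent (D : ℤ) (p q : ℕ) : ZMod 2 := if p = q then dg D p else q2 ((q : ℕ) : ZMod p)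

/-- the matrix, rows indexed by `Rw D`, columns by `Cw D` -/
def MD (D : ℤ) : Matrix (Rw D) (Cw D) (ZMod 2) := Matrix.of fun p q => ent D p q

theorem dg_eq {D : ℤ} (hD : Squarefree D) {p : ℕ} [Fact p.Prime] (hpD : (p : ℤ) ∣ D) (p2 : p ≠ 2)
    (h2 : IsSquare (2 : ZMod p)) {x : ZMod p}
    (hx : x ^ 2 + 13 * ((D / p : ℤ) : ZMod p) * x + 128 * ((D / p : ℤ) : ZMod p) ^ 2 = 0) :
    dg D p = q2 x := by
  have hM : ((D / p : ℤ) : ZMod p) ≠ 0 := by
    rw [Ne, ZMod.intCast_zmod_eq_zero_iff_dvd]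
    exact not_dvd_of_sqf Fact.out hD (ediv hpD)
  unfold dg
  split_ifs with h
  · obtain ⟨r, hr, hs⟩ := h
    rw [sq_xx hM p2 h2 hx hr, q2_eq_zero.2 hs]
  · have h1 : ¬ IsSquare x := fun h3 => h ⟨x, hx, h3⟩
    unfold q2
    rw [if_neg h1]

theorem zmod2_add {a b : ZMod 2} : a + b = 0 ↔ a = b := by
  revert a b; decide

theorem root_ne {p : ℕ} [Fact p.Prime] (p2 : p ≠ 2) {m x : ZMod p} (hm : m ≠ 0)
    (hx : x ^ 2 + 13 * m * x + 128 * m ^ 2 = 0) : x ≠ 0 := by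
  rintro rfl
  have h1 : (2 : ZMod p) ^ 7 * m ^ 2 = 0 := by linear_combination hx
  exact mul_ne_zero (pow_ne_zero _ (two_ne p2)) (pow_ne_zero _ hm) h1

theorem root_ne2 {p : ℕ} [Fact p.Prime] (p7 : p ≠ 7) {m x : ZMod p} (hm : m ≠ 0)
    (hx : x ^ 2 - 26 * m * x - 343 * m ^ 2 = 0) : x ≠ 0 := by
  rintro rfl
  have h1 : (7 : ZMod p) ^ 3 * m ^ 2 = 0 := by linear_combination -hx
  exact mul_ne_zero (pow_ne_zero _ (seven_ne p7)) (pow_ne_zero _ hm) h1

/-- the hypotheses on `D` -/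
structure Adm (D : ℤ) : Prop where
  sqf : Squarefree D
  m4 : D % 4 = 1
  n7 : ¬ (7 : ℤ) ∣ D

theorem Adm.n0 {D : ℤ} (h : Adm D) : D ≠ 0 := h.sqf.ne_zero

theorem Adm.ne2 {D : ℤ} (h : Adm D) {p : ℕ} (hp : (p : ℤ) ∣ D) : p ≠ 2 := by
  rintro rfl
  have := h.m4
  push_cast at hp
  omega

theorem Adm.ne7 {D : ℤ} (h : Adm D) {p : ℕ} (hp : (p : ℤ) ∣ D) : p ≠ 7 := by
  rintro rfl
  exact h.n7 (by exact_mod_cast hp)

theorem Adm.M0 {D : ℤ} (h : Adm D) {p : ℕ} (hpp : p.Prime) (hp : (p : ℤ) ∣ D) :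
    ((D / p : ℤ) : ZMod p) ≠ 0 := by
  rw [Ne, ZMod.intCast_zmod_eq_zero_iff_dvd]
  exact not_dvd_of_sqf hpp h.sqf (ediv hp)

/-- **the first set and the matrix** -/
theorem K1_iff {D : ℤ} (hD : Adm D) {T : Finset ℕ} (hT : T ⊆ Cw D) :
    K1 D T ↔ ∀ p ∈ Rw D, ∑ q ∈ T, ent D p q = 0 := by
  unfold K1
  refine forall_congr' fun p => imp_congr_right fun hp => ?_
  obtain ⟨hpp, hpD, hp2⟩ := (mem_Rw hD.n0).1 hp
  haveI : Fact p.Prime := ⟨hpp⟩
  have p2 := hD.ne2 hpD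
  have hq0 : ∀ q ∈ T, p ≠ q → (q : ZMod p) ≠ 0 := fun q hq hpq =>
    cast_ne hpp ((mem_Cw hD.n0).1 (hT hq)).1 hpq
  by_cases hpT : p ∈ T
  · have hpC := hT hpT
    obtain ⟨-, -, hp7⟩ := (mem_Cw hD.n0).1 hpC
    obtain ⟨x, hx⟩ := ex_root1 (m := ((D / p : ℤ) : ZMod p)) p2 hp7
    have hx0 := root_ne p2 (hD.M0 hpp hpD) hx
    have hpr : ∀ q ∈ T.erase p, (q : ZMod p) ≠ 0 := fun q hq =>
      hq0 q (mem_of_mem_erase hq) (ne_of_mem_erase hq).symm
    have e1 : ∑ q ∈ T, ent D p q = q2 x + ∑ q ∈ T.erase p, q2 ((q : ℕ) : ZMod p) := by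
      rw [← Finset.add_sum_erase T _ hpT]
      congr 1
      · unfold ent
        rw [if_pos rfl, dg_eq hD.sqf hpD p2 hp2 hx]
      · refine sum_congr rfl fun q hq => ?_
        unfold ent
        rw [if_neg (ne_of_mem_erase hq).symm]
    have e2 : ∀ r : ZMod p, r ≠ 0 → q2 (r * ∏ q ∈ T.erase p, (q : ZMod p)) =
        q2 r + ∑ q ∈ T.erase p, q2 ((q : ℕ) : ZMod p) := by
      intro r hr
      rw [q2_mul p2 hr (prod_ne_zero_iff.2 hpr), q2_prod p2 _ _ hpr]
    rw [e1, ← e2 x hx0, q2_eq_zero]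
    constructor
    · rintro ⟨-, h⟩
      obtain ⟨r, hr, hs⟩ := h hpT
      have hr0 := root_ne p2 (hD.M0 hpp hpD) hr
      rw [← q2_eq_zero, e2 x hx0, sq_xx (hD.M0 hpp hpD) p2 hp2 hx hr, ← e2 r hr0, q2_eq_zero]
      exact hs
    · intro h
      exact ⟨fun h1 => absurd hpT h1, fun _ => ⟨x, hx, h⟩⟩
  · have hne : ∀ q ∈ T, p ≠ q := by
      rintro q hq rfl
      exact hpT hq
    have e1 : ∑ q ∈ T, ent D p q = q2 (∏ q ∈ T, (q : ZMod p)) := by
      rw [q2_prod p2 _ _ fun q hq => hq0 q hq (hne q hq)]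
      refine sum_congr rfl fun q hq => ?_
      unfold ent
      rw [if_neg (hne q hq)]
    rw [e1, q2_eq_zero]
    constructor
    · rintro ⟨h, -⟩
      exact h hpT
    · intro h
      exact ⟨fun _ => h, fun h1 => absurd h1 hpT⟩

theorem q2_sg {p : ℕ} [hp : Fact p.Prime] (_ : p ≠ 2) : q2 ((sg p : ℤ) : ZMod p) = q2 (-1 : ZMod p) := by
  unfold sg
  split_ifs with h
  · have hm : IsSquare (-1 : ZMod p) := by
      rw [ZMod.exists_sq_eq_neg_one_iff]; omega
    rw [Int.cast_one, q2_one, q2_eq_zero.2 hm]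
  · push_cast
    rfl

theorem sg_ne {p q : ℕ} [hp : Fact p.Prime] : ((sg q : ℤ) : ZMod p) ≠ 0 := by
  unfold sg
  split_ifs
  · rw [Int.cast_one]; exact one_ne_zero
  · push_cast; exact neg_ne_zero.2 one_ne_zero

/-- **the second set and the matrix** -/
theorem K2_iff {D : ℤ} (hD : Adm D) {T : Finset ℕ} (hT : T ⊆ Rw D) :
    K2 D T ↔ ∀ p ∈ Cw D, ∑ q ∈ T, ent D q p = 0 := by
  unfold K2
  refine forall_congr' fun p => imp_congr_right fun hp => ?_
  obtain ⟨hpp, hpD, hp7⟩ := (mem_Cw hD.n0).1 hp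
  haveI : Fact p.Prime := ⟨hpp⟩
  have p2 := hD.ne2 hpD
  have p7 := hD.ne7 hpD
  have hq0 : ∀ q ∈ T, p ≠ q → (st q : ZMod p) ≠ 0 := by
    intro q hq hpq
    rw [st_eq]
    push_cast
    exact mul_ne_zero sg_ne (cast_ne hpp ((mem_Rw hD.n0).1 (hT hq)).1 hpq)
  have hrec : ∀ q ∈ T, p ≠ q → q2 (st q : ZMod p) = q2 ((p : ℕ) : ZMod q) := by
    intro q hq hpq
    obtain ⟨hqp, hqD, -⟩ := (mem_Rw hD.n0).1 (hT hq)
    haveI : Fact q.Prime := ⟨hqp⟩
    exact q2_st p2 (hD.ne2 hqD) hpq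
  by_cases hpT : p ∈ T
  · have hpR := hT hpT
    obtain ⟨-, -, hp2⟩ := (mem_Rw hD.n0).1 hpR
    obtain ⟨x, hx⟩ := ex_root1 (m := ((D / p : ℤ) : ZMod p)) p2 hp7
    have hx0 := root_ne p2 (hD.M0 hpp hpD) hx
    have hpr : ∀ q ∈ T.erase p, (st q : ZMod p) ≠ 0 := fun q hq =>
      hq0 q (mem_of_mem_erase hq) (ne_of_mem_erase hq).symm
    have e1 : ∑ q ∈ T, ent D q p = q2 x + ∑ q ∈ T.erase p, q2 ((p : ℕ) : ZMod q) := by
      rw [← Finset.add_sum_erase T _ hpT]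
      congr 1
      · unfold ent
        rw [if_pos rfl, dg_eq hD.sqf hpD p2 hp2 hx]
      · refine sum_congr rfl fun q hq => ?_
        unfold ent
        rw [if_neg (ne_of_mem_erase hq)]
    have e2 : ∀ r : ZMod p, r ^ 2 - 26 * ((D / p : ℤ) : ZMod p) * r -
        343 * ((D / p : ℤ) : ZMod p) ^ 2 = 0 →
        q2 (r * (((sg p : ℤ) : ZMod p) * ∏ q ∈ T.erase p, (st q : ZMod p))) = ∑ q ∈ T, ent D q p := by
      intro r hr
      have hr0 := root_ne2 p7 (hD.M0 hpp hpD) hr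
      rw [e1, q2_mul p2 hr0 (mul_ne_zero sg_ne (prod_ne_zero_iff.2 hpr)),
        q2_mul p2 sg_ne (prod_ne_zero_iff.2 hpr), q2_prod p2 _ _ hpr, q2_sg p2]
      have h1 := q2_eq_zero.2 (sq_xy hp2 hx hr)
      rw [q2_mul p2 (neg_ne_zero.2 one_ne_zero) (mul_ne_zero hx0 hr0), q2_mul p2 hx0 hr0] at h1
      have h3 : ∑ q ∈ T.erase p, q2 (st q : ZMod p) = ∑ q ∈ T.erase p, q2 ((p : ℕ) : ZMod q) :=
        sum_congr rfl fun q hq => hrec q (mem_of_mem_erase hq) (ne_of_mem_erase hq).symm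
      rw [h3]
      have : ∀ a b c d : ZMod 2, a + (b + c) = 0 → c + (a + d) = b + d := by decide
      exact this _ _ _ _ h1
    constructor
    · rintro ⟨-, h⟩
      obtain ⟨r, hr, hs⟩ := h hpT
      rw [← e2 r hr, q2_eq_zero]
      exact hs
    · intro h
      refine ⟨fun h1 => absurd hpT h1, fun _ => ?_⟩
      obtain ⟨y, hy⟩ := ex_root2 (m := ((D / p : ℤ) : ZMod p)) hp2
      exact ⟨y, hy, q2_eq_zero.1 ((e2 y hy).trans h)⟩
  · have hne : ∀ q ∈ T, p ≠ q := by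
      rintro q hq rfl
      exact hpT hq
    have e1 : ∑ q ∈ T, ent D q p = q2 (∏ q ∈ T, (st q : ZMod p)) := by
      rw [q2_prod p2 _ _ fun q hq => hq0 q hq (hne q hq)]
      refine sum_congr rfl fun q hq => ?_
      unfold ent
      rw [if_neg (hne q hq).symm, hrec q hq (hne q hq)]
    rw [e1, q2_eq_zero]
    constructor
    · rintro ⟨h, -⟩
      exact h hpT
    · intro h
      exact ⟨fun _ => h, fun h1 => absurd h1 hpT⟩

end

end Pool.Agent.NH5.GD
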